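import Pool.Agent.K1H35.SH.Stm

/-! Project SH, piece NUM (helper52): choice of the parameters. -/

set_option autoImplicit false

namespace Pool.Agent.K1H52.SH

open Pool.Agent.K1H35.SH

theorem six (L : ℕ) (hL : 1 ≤ L) : L ^ 6 ≤ 2 ^ 20 * 2 ^ (L - 1) := by
  obtain ⟨m, rfl⟩ : ∃ m, L = m + 1 := ⟨L - 1, by omega⟩
  rw [Nat.add_sub_cancel]
  clear hL
  rcases lt_or_ge m 9 with h | h
  · interval_cases m <;> norm_num
  · induction m, h using Nat.le_induction with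
    | base => norm_num
    | succ m hm ih =>
      have h1 : (m + 1 + 1) ^ 6 ≤ 2 * (m + 1) ^ 6 := by
        obtain ⟨k, rfl⟩ : ∃ k, m = k + 9 := ⟨m - 9, by omega⟩
        have h2 : (k + 9 + 1 + 1) ^ 6 + (k ^ 6 + 54 * k ^ 5 + 1185 * k ^ 4 + 13380 * k ^ 3 +
          80385 * k ^ 2 + 233694 * k + 228439) = 2 * (k + 9 + 1) ^ 6 := by ring
        omega
      calc (m + 1 + 1) ^ 6 ≤ 2 * (m + 1) ^ 6 := h1
        _ ≤ 2 * (2 ^ 20 * 2 ^ m) := by omega
        _ = 2 ^ 20 * 2 ^ (m + 1) := by ring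

theorem t_NUM : S_NUM := by
  refine ⟨2 ^ 100, by positivity, ?_⟩
  intro n d hn hd hdn
  obtain ⟨L, hL⟩ : ∃ L, L = Nat.log 2 n + 1 := ⟨_, rfl⟩
  have hL1 : 1 ≤ L := by omega
  have hnL : n < 2 ^ L := by rw [hL]; exact Nat.lt_pow_succ_log_self (by norm_num) n
  have hLn : 2 ^ (L - 1) ≤ n := by
    rw [hL, Nat.add_sub_cancel]; exact Nat.pow_log_le_self 2 (by omega)
  have hn0 : 0 < n := by omega
  -- from the real inequality to natural numbers
  have hA : 2 ^ 98 * n ^ 2 * L ≤ d ^ 3 := by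
    have hn' : (2 : ℝ) ≤ n := by exact_mod_cast hn
    have h2 : (0.5 : ℝ) < Real.log 2 := by have := Real.log_two_gt_d9; linarith
    have h3 : Real.log 2 ≤ Real.log n := Real.log_le_log (by norm_num) hn'
    have h4 : ((L : ℝ) - 1) * Real.log 2 ≤ Real.log n := by
      have h5 : Real.log ((2 : ℝ) ^ (L - 1)) ≤ Real.log n :=
        Real.log_le_log (by positivity) (by exact_mod_cast hLn)
      rw [Real.log_pow] at h5
      have h6 : (((L - 1 : ℕ) : ℕ) : ℝ) = (L : ℝ) - 1 := by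
        rw [Nat.cast_sub hL1, Nat.cast_one]
      rwa [h6] at h5
    have h5 : (L : ℝ) ≤ 4 * Real.log n := by
      have h6 : (L : ℝ) * Real.log 2 ≤ 2 * Real.log n := by nlinarith
      have h7 : (0 : ℝ) ≤ L := by positivity
      nlinarith
    have h6 : (2 : ℝ) ^ 98 * n ^ 2 * L ≤ d ^ 3 := by
      calc (2 : ℝ) ^ 98 * n ^ 2 * L ≤ 2 ^ 98 * n ^ 2 * (4 * Real.log n) :=
            mul_le_mul_of_nonneg_left h5 (by positivity)
        _ = 2 ^ 100 * n ^ 2 * Real.log n := by ring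
        _ ≤ _ := hd
    exact_mod_cast h6
  have hd1 : 4096 ≤ d := by
    by_contra hlt
    push Not at hlt
    have h1 : d ^ 3 < 4096 ^ 3 := Nat.pow_lt_pow_left hlt (by norm_num)
    have h2 : 2 ^ 98 * 1 * 1 ≤ 2 ^ 98 * n ^ 2 * L := by
      gcongr
      exact Nat.one_le_pow _ _ hn0
    have h3 := h2.trans hA
    have h4 : (4096 : ℕ) ^ 3 < 2 ^ 98 * 1 * 1 := by norm_num
    exact absurd (h1.trans h4) (not_lt.2 h3)
  have hd0 : 0 < d := by omega
  -- d^2 ≥ 2^24 n L^2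
  have hE : 2 ^ 24 * (n * L ^ 2) ≤ d ^ 2 := by
    have h1 : (2 ^ 24 * (n * L ^ 2)) ^ 3 ≤ (d ^ 2) ^ 3 := by
      calc (2 ^ 24 * (n * L ^ 2)) ^ 3 = 2 ^ 72 * n ^ 3 * L ^ 6 := by ring
        _ ≤ 2 ^ 72 * n ^ 3 * (2 ^ 20 * 2 ^ (L - 1)) := Nat.mul_le_mul_left _ (six L hL1)
        _ ≤ 2 ^ 72 * n ^ 3 * (2 ^ 20 * n) := by gcongr
        _ = 2 ^ 92 * n ^ 4 * 1 := by ring
        _ ≤ 2 ^ 196 * n ^ 4 * L ^ 2 := by
            gcongr
            · norm_num
            · norm_num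
            · exact Nat.one_le_pow _ _ hL1
        _ = (2 ^ 98 * n ^ 2 * L) ^ 2 := by ring
        _ ≤ (d ^ 3) ^ 2 := Nat.pow_le_pow_left hA 2
        _ = (d ^ 2) ^ 3 := by ring
    exact (Nat.pow_le_pow_iff_left (by norm_num)).1 h1
  obtain ⟨r, hr⟩ : ∃ r, r = n / d + 1 := ⟨_, rfl⟩
  have hr1 : 1 ≤ r := by rw [hr]; exact Nat.le_add_left _ _
  have hrd : r * d ≤ 2 * n := by
    have h1 : n / d * d ≤ n := Nat.div_mul_le_self n d
    have h2 : r * d = n / d * d + d := by rw [hr]; ring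
    omega
  have hrd' : n ≤ r * d := by
    have h1 := Nat.div_add_mod n d
    have h2 := Nat.mod_lt n hd0
    have h3 : r * d = d * (n / d) + d := by rw [hr]; ring
    omega
  obtain ⟨s, hs⟩ : ∃ s, s = L * r := ⟨_, rfl⟩
  have hsL : L ≤ s := by rw [hs]; exact Nat.le_mul_of_pos_right _ hr1
  have hs1 : 1 ≤ s := hL1.trans hsL
  have hsd : s * d ≤ 2 * (n * L) := by
    calc s * d = L * (r * d) := by rw [hs]; ring
      _ ≤ L * (2 * n) := Nat.mul_le_mul_left _ hrd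
      _ = _ := by ring
  have hsd' : n * L ≤ s * d := by
    calc n * L = L * n := by ring
      _ ≤ L * (r * d) := Nat.mul_le_mul_left _ hrd'
      _ = _ := by rw [hs]; ring
  obtain ⟨g, hg⟩ : ∃ g, g = d / 16 := ⟨_, rfl⟩
  have hg32 : d ≤ 32 * g := by omega
  obtain ⟨a, ha⟩ : ∃ a, a = 2 ^ 14 * s := ⟨_, rfl⟩
  have ha1 : 2 ^ 14 ≤ a := by omega
  have haL : 2 ^ 9 * (a * L) ≤ d := by
    refine Nat.le_of_mul_le_mul_right (c := d) ?_ hd0
    calc 2 ^ 9 * (a * L) * d = 2 ^ 23 * (s * d) * L := by rw [ha]; ring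
      _ ≤ 2 ^ 23 * (2 * (n * L)) * L := by gcongr
      _ = 2 ^ 24 * (n * L ^ 2) := by ring
      _ ≤ d ^ 2 := hE
      _ = d * d := by ring
  have haLa : a ≤ a * L := Nat.le_mul_of_pos_right _ hL1
  have haLL : 2 ^ 14 * L ≤ a * L := Nat.mul_le_mul_right _ ha1
  have hss : s ≤ s * s := Nat.le_mul_of_pos_right _ hs1
  have hsLs : L * s ≤ s * s := Nat.mul_le_mul_right _ hsL
  have hJ3 : (2 * a + 2) * L + 2 ≤ 3 * (a * L) := by
    have : (2 * a + 2) * L + 2 = 2 * (a * L) + 2 * L + 2 := by ring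
    omega
  have hq : 2 ^ 24 * (L * s) ≤ 2 ^ 24 * (s * s) := Nat.mul_le_mul_left _ hsLs
  refine ⟨a, 2 ^ 25 * (s * s), (2 * a + 2) * L + 2, 5 * L + 2, hd1, ?_, ?_, ?_, ?_, ?_, ?_, ?_, ?_⟩
  · rw [← hg]; omega
  · have h1 : a * (a - 1) = a * a - a := Nat.mul_sub_one a a
    have h2 : a * a = 2 ^ 28 * (s * s) := by rw [ha]; ring
    rw [h1, h2]
    omega
  · have h1 : 3 * (a * L) = 3 * 2 ^ 14 * (L * s) := by rw [ha]; ring
    omega
  · rw [← hg]
    refine (Nat.mul_le_mul_left_iff (show 0 < 32 by norm_num)).1 ?_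
    calc 32 * (16 * ((2 * a + 2) * L + 2) * n) ≤ 32 * (16 * (3 * (a * L)) * n) := by gcongr
      _ = 3 * 2 ^ 23 * s * (n * L) := by rw [ha]; ring
      _ ≤ 3 * 2 ^ 23 * s * (s * d) := Nat.mul_le_mul_left _ hsd'
      _ ≤ 2 ^ 25 * s * (s * d) := by gcongr; norm_num
      _ = 2 ^ 25 * (s * s) * d := by ring
      _ ≤ 2 ^ 25 * (s * s) * (32 * g) := Nat.mul_le_mul_left _ hg32
      _ = _ := by ring
  · refine Nat.le_of_mul_le_mul_right (c := d) ?_ hd0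
    have h1 : 5 * L + 2 + a ≤ 2 * a := by omega
    calc 4096 * ((5 * L + 2 + a) * n) * d ≤ 4096 * (2 * a * n) * d := by gcongr
      _ = 2 ^ 27 * n * (s * d) := by rw [ha]; ring
      _ ≤ 2 ^ 27 * n * (2 * (n * L)) := Nat.mul_le_mul_left _ hsd
      _ = 2 ^ 28 * (n ^ 2 * L) := by ring
      _ ≤ 2 ^ 98 * (n ^ 2 * L) := by gcongr <;> norm_num
      _ = 2 ^ 98 * n ^ 2 * L := by ring
      _ ≤ d ^ 3 := hA
      _ = d ^ 2 * d := by ring
  · rw [← hg]
    calc 3 * n ^ (2 * a + 9) ≤ 2 ^ 2 * (2 ^ L) ^ (2 * a + 9) := by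
          gcongr
          norm_num
      _ = 2 ^ (2 + L * (2 * a + 9)) := by rw [← pow_mul, ← pow_add]
      _ ≤ 2 ^ g := by
          refine Nat.pow_le_pow_right (by norm_num) ?_
          have : 2 + L * (2 * a + 9) = 2 + 2 * (a * L) + 9 * L := by ring
          omega
  · calc 3 * n ^ 5 ≤ 2 ^ 2 * (2 ^ L) ^ 5 := by
          gcongr
          norm_num
      _ = 2 ^ (5 * L + 2) := by rw [← pow_mul, ← pow_add]; congr 1; ring
  · calc 3 * n ^ (2 * a + 1) ≤ 2 ^ 2 * (2 ^ L) ^ (2 * a + 1) := by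
          gcongr
          norm_num
      _ = 2 ^ (2 + L * (2 * a + 1)) := by rw [← pow_mul, ← pow_add]
      _ ≤ 2 ^ ((2 * a + 2) * L + 2) := by
          refine Nat.pow_le_pow_right (by norm_num) ?_
          have h1 : 2 + L * (2 * a + 1) = 2 * (a * L) + L + 2 := by ring
          have h2 : (2 * a + 2) * L + 2 = 2 * (a * L) + 2 * L + 2 := by ring
          omega

end Pool.Agent.K1H52.SH
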